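import Mathlib

/-! Suspension flows: definitions and existence of the flow. -/

set_option autoImplicit false

open Set Filter Topology

namespace Pool.Agent.R254.Susp

section General

variable {X : Type} [TopologicalSpace X]

/-- the points `(x, s)` with `0 ≤ s ≤ r x` -/
def Base (r : X → ℝ) : Type := {p : X × ℝ // 0 ≤ p.2 ∧ p.2 ≤ r p.1}

instance (r : X → ℝ) : TopologicalSpace (Base r) :=
  inferInstanceAs (TopologicalSpace {p : X × ℝ // 0 ≤ p.2 ∧ p.2 ≤ r p.1})

/-- `(x, r x)` is glued to `(σ x, 0)` -/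
def Glue (σ : X → X) (r : X → ℝ) (p q : Base r) : Prop :=
  p.1.2 = r p.1.1 ∧ q.1.1 = σ p.1.1 ∧ q.1.2 = 0

/-- the suspension space, with the quotient topology -/
def Space (σ : X → X) (r : X → ℝ) : Type := Quot (Glue σ r)

instance (σ : X → X) (r : X → ℝ) : TopologicalSpace (Space σ r) :=
  inferInstanceAs (TopologicalSpace (Quot (Glue σ r)))

/-- `φ` is the suspension flow: a flow moving the second coordinate at unit speed. -/
def IsSuspensionFlow (σ : X → X) (r : X → ℝ) (φ : ℝ → Space σ r → Space σ r) : Prop :=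
  (∀ q, φ 0 q = q) ∧ (∀ s t q, φ (s + t) q = φ s (φ t q)) ∧
    ∀ p p' : Base r, p.1.1 = p'.1.1 → p.1.2 ≤ p'.1.2 →
      φ (p'.1.2 - p.1.2) (Quot.mk _ p) = Quot.mk _ p'

/-- topological mixing of a flow -/
def IsMixingFlow {Y : Type} [TopologicalSpace Y] (φ : ℝ → Y → Y) : Prop :=
  ∀ U V : Set Y, IsOpen U → IsOpen V → U.Nonempty → V.Nonempty →
    ∃ T : ℝ, ∀ t : ℝ, T ≤ t → (φ t '' U ∩ V).Nonempty

/-- `f - g = h ∘ σ - h` for some continuous `h` -/
def Cohomologous (σ : X → X) (f g : X → ℝ) : Prop :=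
  ∃ h : X → ℝ, Continuous h ∧ ∀ x, f x - g x = h (σ x) - h x

end General

section Existence

variable {X : Type} [TopologicalSpace X] (σ : X ≃ X) (r : X → ℝ)

/-- the return map in the plane -/
def T : (X × ℝ) ≃ (X × ℝ) where
  toFun p := (σ p.1, p.2 - r p.1)
  invFun p := (σ.symm p.1, p.2 + r (σ.symm p.1))
  left_inv p := by ext <;> simp
  right_inv p := by ext <;> simp

/-- orbit relation -/
def orbSetoid : Setoid (X × ℝ) where
  r p q := ∃ n : ℤ, (T σ r ^ n) p = q
  iseqv := {
    refl := fun p => ⟨0, rfl⟩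
    symm := by
      rintro p q ⟨n, rfl⟩
      exact ⟨-n, by rw [zpow_neg]; simp⟩
    trans := by
      rintro p q s ⟨n, rfl⟩ ⟨m, rfl⟩
      exact ⟨m + n, by rw [zpow_add]; rfl⟩ }

/-- the comparison map -/
def jmap : Space σ r → Quotient (orbSetoid σ r) :=
  Quot.lift (fun p : Base r => Quotient.mk (orbSetoid σ r) p.1) (by
    rintro p q ⟨h1, h2, h3⟩
    apply Quotient.sound
    refine ⟨1, ?_⟩
    rw [zpow_one]
    show (σ p.1.1, p.1.2 - r p.1.1) = q.1
    ext
    · exact h2.symm
    · show p.1.2 - r p.1.1 = q.1.2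
      rw [h1, h3, sub_self])

variable {σ r} (hr : ∀ x, 0 < r x)

include hr in
theorem T_snd_le (n : ℕ) (p : X × ℝ) : ((T σ r ^ n) p).2 ≤ p.2 := by
  induction n generalizing p with
  | zero => simp
  | succ n ih =>
    rw [pow_succ]
    refine (ih _).trans ?_
    show p.2 - r p.1 ≤ p.2
    linarith [hr p.1]

include hr in
theorem glue_of_T {n : ℕ} {p q : Base r} (h : (T σ r ^ n) p.1 = q.1) :
    (Quot.mk _ p : Space σ r) = Quot.mk _ q := by
  rcases n with _ | n
  · have : p = q := Subtype.ext (by simpa using h)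
    rw [this]
  rcases n with _ | n
  · apply Quot.sound
    rw [zero_add, pow_one] at h
    have h1 : σ p.1.1 = q.1.1 := congrArg Prod.fst h
    have h2 : p.1.2 - r p.1.1 = q.1.2 := congrArg Prod.snd h
    have h3 := p.2.2
    have h4 := q.2.1
    refine ⟨by linarith, h1.symm, by linarith⟩
  · exfalso
    rw [pow_succ, pow_succ] at h
    have h1 := T_snd_le hr n (σ := σ) (T σ r (T σ r p.1))
    have h2 : ((T σ r ^ n) (T σ r (T σ r p.1))).2 = q.1.2 := congrArg Prod.snd h
    have h3 : (T σ r (T σ r p.1)).2 = p.1.2 - r p.1.1 - r (σ p.1.1) := rfl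
    have h4 := p.2.2
    have h5 := q.2.1
    have h6 := hr (σ p.1.1)
    linarith

include hr in
theorem jmap_injective : Function.Injective (jmap σ r) := by
  intro a b
  induction a using Quot.ind with | mk p => ?_
  induction b using Quot.ind with | mk q => ?_
  intro h
  obtain ⟨n, hn⟩ := Quotient.exact (s := orbSetoid σ r) h
  obtain ⟨m, rfl | rfl⟩ := Int.eq_nat_or_neg n
  · exact glue_of_T hr (by simpa using hn)
  · refine (glue_of_T hr (n := m) ?_).symm
    rw [← hn, zpow_neg, zpow_natCast]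
    simp

theorem jmap_surjective {c : ℝ} (hc : 0 < c) (hrc : ∀ x, c ≤ r x) :
    Function.Surjective (jmap σ r) := by
  intro z
  induction z using Quotient.ind with | _ p => ?_
  obtain ⟨N, hN⟩ : ∃ N : ℕ, |p.2| ≤ N * c := by
    obtain ⟨N, hN⟩ := exists_nat_ge (|p.2| / c)
    exact ⟨N, by rwa [div_le_iff₀ hc] at hN⟩
  induction N generalizing p with
  | zero =>
    have h0 : p.2 = 0 := by
      rw [Nat.cast_zero, zero_mul] at hN
      exact abs_eq_zero.1 (le_antisymm hN (abs_nonneg _))
    exact ⟨Quot.mk _ ⟨p, by rw [h0], by rw [h0]; linarith [hrc p.1]⟩, rfl⟩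
  | succ N ih =>
    rcases lt_or_ge p.2 0 with h | h
    · set q := (T σ r).symm p with hq
      have hq2 : q.2 = p.2 + r (σ.symm p.1) := rfl
      have hpq : Quotient.mk (orbSetoid σ r) p = Quotient.mk (orbSetoid σ r) q := by
        apply Quotient.sound
        exact ⟨-1, by rw [zpow_neg, zpow_one]; rfl⟩
      rw [hpq]
      rcases le_or_gt q.2 0 with h2 | h2
      · apply ih
        rw [abs_of_nonpos h2]
        rw [abs_of_neg h] at hN
        push_cast at hN
        linarith [hrc (σ.symm p.1)]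
      · refine ⟨Quot.mk _ ⟨q, h2.le, ?_⟩, rfl⟩
        show q.2 ≤ r (σ.symm p.1)
        linarith
    · rcases le_or_gt p.2 (r p.1) with h2 | h2
      · exact ⟨Quot.mk _ ⟨p, h, h2⟩, rfl⟩
      · have hpq : Quotient.mk (orbSetoid σ r) p = Quotient.mk (orbSetoid σ r) (T σ r p) := by
          apply Quotient.sound
          exact ⟨1, by rw [zpow_one]⟩
        rw [hpq]
        apply ih
        show |p.2 - r p.1| ≤ _
        rw [abs_of_nonneg h] at hN
        rw [abs_of_pos (by linarith)]
        push_cast at hN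
        linarith [hrc p.1]

theorem T_zpow_add (n : ℤ) (p : X × ℝ) (t : ℝ) :
    (T σ r ^ n) (p.1, p.2 + t) = (((T σ r ^ n) p).1, ((T σ r ^ n) p).2 + t) := by
  have hT : ∀ (p : X × ℝ) (t : ℝ), T σ r (p.1, p.2 + t) = ((T σ r p).1, (T σ r p).2 + t) := by
    intro p t
    show (σ p.1, p.2 + t - r p.1) = (σ p.1, p.2 - r p.1 + t)
    ext
    · rfl
    · show p.2 + t - r p.1 = p.2 - r p.1 + t
      ring
  have hS : ∀ (p : X × ℝ) (t : ℝ), (T σ r).symm (p.1, p.2 + t) =
      (((T σ r).symm p).1, ((T σ r).symm p).2 + t) := by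
    intro p t
    rw [Equiv.symm_apply_eq, hT]
    simp
  induction n using Int.induction_on with
  | zero => simp
  | succ n ih =>
    rw [add_comm, zpow_add, zpow_one]
    show T σ r ((T σ r ^ (n:ℤ)) (p.1, p.2 + t)) = _
    rw [ih, hT]
    rfl
  | pred n ih =>
    rw [sub_eq_add_neg, add_comm, zpow_add, zpow_neg, zpow_one]
    show (T σ r).symm ((T σ r ^ (-(n:ℤ))) (p.1, p.2 + t)) = _
    rw [ih, hS]
    rfl

/-- translation on the orbit space -/
def transl (t : ℝ) : Quotient (orbSetoid σ r) → Quotient (orbSetoid σ r) :=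
  Quotient.map (fun p : X × ℝ => (p.1, p.2 + t)) (by
    rintro p q ⟨n, rfl⟩
    exact ⟨n, T_zpow_add n p t⟩)

include hr in
theorem exists_flow {c : ℝ} (hc : 0 < c) (hrc : ∀ x, c ≤ r x) :
    ∃ φ : ℝ → Space σ r → Space σ r, IsSuspensionFlow σ r φ := by
  let e : Space σ r ≃ Quotient (orbSetoid σ r) :=
    Equiv.ofBijective (jmap σ r) ⟨jmap_injective hr, jmap_surjective hc hrc⟩
  have he : ∀ q, e q = jmap σ r q := fun q => rfl
  have htr0 : ∀ z : Quotient (orbSetoid σ r), transl 0 z = z := by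
    intro z
    induction z using Quotient.ind with | _ p => ?_
    show Quotient.mk _ (p.1, p.2 + 0) = _
    rw [add_zero]
  have htr : ∀ (s t : ℝ) (z : Quotient (orbSetoid σ r)),
      transl (s + t) z = transl s (transl t z) := by
    intro s t z
    induction z using Quotient.ind with | _ p => ?_
    show Quotient.mk _ (p.1, p.2 + (s + t)) = Quotient.mk _ (p.1, p.2 + t + s)
    congr 2
    ring
  refine ⟨fun t q => e.symm (transl t (e q)), ?_, ?_, ?_⟩
  · intro q
    simp only [htr0, Equiv.symm_apply_apply]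
  · intro s t q
    simp only [htr, Equiv.apply_symm_apply]
  · intro p p' h1 h2
    simp only
    rw [Equiv.symm_apply_eq, he, he]
    show Quotient.mk _ (p.1.1, p.1.2 + (p'.1.2 - p.1.2)) = Quotient.mk _ p'.1
    congr 1
    ext
    · exact h1
    · show p.1.2 + (p'.1.2 - p.1.2) = p'.1.2
      ring

end Existence

end Pool.Agent.R254.Susp
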