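import Pool.Agent.R254.Susp.Defs

/-! The example: orbit closure of the indicator of the ternary Cantor integers, with the roof
`1 + h ∘ σ - h`, `h = cos √D / 16`, `D` = distance to the nearest `1`. -/

set_option autoImplicit false

open Set Filter Topology

namespace Pool.Agent.R254.Susp

/-- the left shift on two-sided binary sequences -/
def shift (x : ℤ → Bool) : ℤ → Bool := fun i => x (i + 1)

/-- shift space over the alphabet `Bool`: nonempty, closed, and `x ∈ X ↔ σ x ∈ X` -/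
def IsShiftSpace (X : Set (ℤ → Bool)) : Prop :=
  X.Nonempty ∧ IsClosed X ∧ ∀ x, x ∈ X ↔ shift x ∈ X

/-- transitivity -/
def IsTransitive (X : Set (ℤ → Bool)) : Prop :=
  ∀ U V : Set (ℤ → Bool), IsOpen U → IsOpen V → (U ∩ X).Nonempty → (V ∩ X).Nonempty →
    ∃ n : ℕ, 1 ≤ n ∧ ∃ x ∈ X, x ∈ U ∧ shift^[n] x ∈ V

theorem shift_iterate (n : ℕ) (x : ℤ → Bool) (i : ℤ) : shift^[n] x i = x (i + n) := by
  induction n generalizing x i with
  | zero => simp
  | succ n ih =>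
    rw [Function.iterate_succ_apply, ih]
    simp only [shift]
    congr 1
    push_cast; ring

/-- indicator of the integers all of whose ternary digits are `0` or `1` -/
noncomputable def x₀ (n : ℤ) : Bool := by
  classical
  exact decide (∀ i : ℕ, (n / 3 ^ i) % 3 ≠ 2)

theorem x₀_iff (n : ℤ) : x₀ n = true ↔ ∀ i : ℕ, (n / 3 ^ i) % 3 ≠ 2 := by
  simp [x₀]

theorem x₀_false {n : ℤ} (i : ℕ) (h : (n / 3 ^ i) % 3 = 2) : x₀ n = false := by
  rw [← Bool.not_eq_true, x₀_iff]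
  push Not
  exact ⟨i, h⟩

theorem x₀_zero : x₀ 0 = true := by
  rw [x₀_iff]; intro i; simp

theorem x₀_neg {n : ℤ} (h : n < 0) : x₀ n = false := by
  obtain ⟨k, hk⟩ : ∃ k : ℕ, -n ≤ 3 ^ k := by
    refine ⟨(-n).toNat, ?_⟩
    have h1 : (-n) = ((-n).toNat : ℤ) := by omega
    have h2 : (-n).toNat < 3 ^ (-n).toNat := Nat.lt_pow_self (by norm_num)
    rw [h1]
    exact_mod_cast h2.le
  apply x₀_false k
  have hp : (0:ℤ) < 3 ^ k := by positivity
  have : n / 3 ^ k = -1 := by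
    rw [Int.ediv_eq_iff_of_pos hp]
    constructor <;> linarith
  rw [this]; rfl

/-- zero runs -/
theorem zero_run (m : ℤ) (i : ℕ) : ∃ a : ℤ, m ≤ a ∧ a + 3 ^ i ≤ m + 2 * 3 ^ (i + 1) ∧
    ∀ k : ℤ, 0 ≤ k → k < 3 ^ i → x₀ (a + k) = false := by
  have hp : (0:ℤ) < 3 ^ i := by positivity
  have hp1 : (0:ℤ) < 3 ^ (i + 1) := by positivity
  have e : (3:ℤ) ^ (i + 1) = 3 * 3 ^ i := by ring
  have h1 := Int.emod_add_mul_ediv m (3 ^ (i + 1))
  have h2 := Int.emod_nonneg m hp1.ne'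
  have h3 := Int.emod_lt_of_pos m hp1
  set q := m / 3 ^ (i + 1) with hq
  refine ⟨3 ^ (i + 1) * (q + 1) + 2 * 3 ^ i, by nlinarith, by nlinarith, fun k hk hk' => ?_⟩
  apply x₀_false i
  have h4 : 3 ^ (i + 1) * (q + 1) + 2 * 3 ^ i + k = k + 3 ^ i * (3 * (q + 1) + 2) := by
    rw [e]; ring
  rw [h4, Int.add_mul_ediv_left _ _ hp.ne', Int.ediv_eq_zero_of_lt hk hk', zero_add]
  omega

/-- recurrence -/
theorem x₀_add (i : ℕ) {j : ℤ} (h1 : -3 ^ i ≤ j) (h2 : j < 3 ^ i) :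
    x₀ (j + 3 ^ (i + 1)) = x₀ j := by
  have hp : (0:ℤ) < 3 ^ i := by positivity
  have e : (3:ℤ) ^ (i + 1) = 3 * 3 ^ i := by ring
  rcases lt_or_ge j 0 with h | h
  · rw [x₀_neg h]
    apply x₀_false i
    have : (j + 3 ^ (i + 1)) / 3 ^ i = 2 := by
      rw [Int.ediv_eq_iff_of_pos hp]
      constructor <;> linarith
    rw [this]; rfl
  · have key : ∀ k : ℕ, ((j + 3 ^ (i + 1)) / 3 ^ k) % 3 = 2 ↔ (j / 3 ^ k) % 3 = 2 := by
      intro k
      have hpk : (0:ℤ) < 3 ^ k := by positivity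
      rcases le_or_gt k i with hk | hk
      · obtain ⟨d, rfl⟩ := Nat.exists_eq_add_of_le hk
        have e2 : j + 3 ^ (k + d + 1) = j + 3 ^ k * (3 * 3 ^ d) := by ring
        rw [e2, Int.add_mul_ediv_left _ _ hpk.ne']
        omega
      · have hle : (3:ℤ) ^ (i + 1) ≤ 3 ^ k := pow_le_pow_right₀ (by norm_num) hk
        have h3 : j / 3 ^ k = 0 := Int.ediv_eq_zero_of_lt h (by linarith)
        rw [h3]
        have h5 : (j + 3 ^ (i + 1)) / 3 ^ k = 0 ∨ (j + 3 ^ (i + 1)) / 3 ^ k = 1 := by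
          rcases lt_or_ge (j + 3 ^ (i + 1)) (3 ^ k) with h6 | h6
          · left; exact Int.ediv_eq_zero_of_lt (by linarith) h6
          · right
            rw [Int.ediv_eq_iff_of_pos hpk]
            constructor <;> linarith
        rcases h5 with h5 | h5 <;> rw [h5] <;> simp
    have : (x₀ (j + 3 ^ (i + 1)) = true) = (x₀ j = true) := by
      rw [x₀_iff, x₀_iff]
      apply propext
      constructor
      · intro h k hk; exact h k ((key k).2 hk)
      · intro h k hk; exact h k ((key k).1 hk)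
    exact Bool.eq_iff_iff.2 (iff_of_eq this)

/-- the shift space -/
def XX : Set (ℤ → Bool) := {y | ∀ L : ℕ, ∃ n : ℤ, ∀ i : ℤ, |i| ≤ L → y i = x₀ (i + n)}

/-- the fixed point -/
def pp : ℤ → Bool := fun _ => false

theorem translate_mem (n : ℤ) : (fun i => x₀ (i + n)) ∈ XX := fun _ => ⟨n, fun _ _ => rfl⟩

theorem pp_mem : pp ∈ XX := by
  intro L
  obtain ⟨a, -, -, ha⟩ := zero_run 0 (2 * L + 1)
  refine ⟨a + L, fun i hi => ?_⟩
  have h1 := abs_le.1 hi
  have h2 : ((2 * L + 1 : ℕ) : ℤ) < 3 ^ (2 * L + 1) := by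
    have : 2 * L + 1 < 3 ^ (2 * L + 1) := Nat.lt_pow_self (by norm_num)
    exact_mod_cast this
  push_cast at h2
  have h3 := ha (i + L) (by linarith [h1.1]) (by linarith [h1.2])
  rw [show i + (a + L) = a + (i + L) by ring, h3]
  rfl

theorem shift_mem_iff (x : ℤ → Bool) : x ∈ XX ↔ shift x ∈ XX := by
  constructor
  · intro h L
    obtain ⟨n, hn⟩ := h (L + 1)
    refine ⟨n + 1, fun i hi => ?_⟩
    have h1 := abs_le.1 hi
    have := hn (i + 1) (by push_cast; rw [abs_le]; constructor <;> linarith [h1.1, h1.2])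
    rw [show i + (n + 1) = i + 1 + n by ring, ← this]
    rfl
  · intro h L
    obtain ⟨n, hn⟩ := h (L + 1)
    refine ⟨n - 1, fun i hi => ?_⟩
    have h1 := abs_le.1 hi
    have := hn (i - 1) (by push_cast; rw [abs_le]; constructor <;> linarith [h1.1, h1.2])
    rw [show i + (n - 1) = i - 1 + n by ring, ← this]
    simp [shift]

/-- cylinder neighbourhoods -/
theorem cyl_nhds (y : ℤ → Bool) (L : ℕ) : {z : ℤ → Bool | ∀ i : ℤ, |i| ≤ L → z i = y i} ∈ 𝓝 y := by
  have hfin : (Set.Icc (-(L:ℤ)) L).Finite := Set.finite_Icc _ _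
  have : {z : ℤ → Bool | ∀ i : ℤ, |i| ≤ L → z i = y i} = ⋂ i ∈ Set.Icc (-(L:ℤ)) L, {z | z i = y i} := by
    ext z
    simp only [mem_setOf_eq, mem_iInter, mem_Icc, abs_le]
  rw [this, Filter.biInter_mem hfin]
  intro i _
  have ho : IsOpen {z : ℤ → Bool | z i = y i} := by
    have : {z : ℤ → Bool | z i = y i} = (fun z : ℤ → Bool => z i) ⁻¹' {y i} := rfl
    rw [this]
    exact (isOpen_discrete _).preimage (continuous_apply i)
  exact ho.mem_nhds rfl

theorem exists_cyl {y : ℤ → Bool} {U : Set (ℤ → Bool)} (hU : U ∈ 𝓝 y) :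
    ∃ L : ℕ, ∀ z : ℤ → Bool, (∀ i : ℤ, |i| ≤ L → z i = y i) → z ∈ U := by
  rw [nhds_pi, Filter.mem_pi] at hU
  obtain ⟨I, hI, t, ht, hsub⟩ := hU
  obtain ⟨L, hL⟩ : ∃ L : ℕ, ∀ i ∈ I, |i| ≤ L := by
    obtain ⟨b, hb⟩ := (hI.image (fun i : ℤ => i.natAbs)).bddAbove
    refine ⟨b, fun i hi => ?_⟩
    have := hb ⟨i, hi, rfl⟩
    rw [Int.abs_eq_natAbs]
    exact_mod_cast this
  refine ⟨L, fun z hz => hsub ?_⟩
  intro i hi
  rw [hz i (hL i hi)]
  exact mem_of_mem_nhds (ht i)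

theorem isClosed_XX : IsClosed XX := by
  rw [← isOpen_compl_iff, isOpen_iff_mem_nhds]
  intro y hy
  have : ∃ L : ℕ, ∀ n : ℤ, ∃ i : ℤ, |i| ≤ L ∧ y i ≠ x₀ (i + n) := by
    by_contra hcon
    apply hy
    push Not at hcon
    exact hcon
  obtain ⟨L, hL⟩ := this
  filter_upwards [cyl_nhds y L] with z hz hzX
  obtain ⟨n, hn⟩ := hzX L
  obtain ⟨i, hi, hne⟩ := hL n
  exact hne (by rw [← hz i hi, hn i hi])

theorem isShiftSpace_XX : IsShiftSpace XX := ⟨⟨pp, pp_mem⟩, isClosed_XX, shift_mem_iff⟩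

theorem isTransitive_XX : IsTransitive XX := by
  rintro U V hU hV ⟨a, haU, haX⟩ ⟨b, hbV, hbX⟩
  obtain ⟨La, hLa⟩ := exists_cyl (hU.mem_nhds haU)
  obtain ⟨Lb, hLb⟩ := exists_cyl (hV.mem_nhds hbV)
  obtain ⟨na, hna⟩ := haX La
  obtain ⟨nb, hnb⟩ := hbX Lb
  set k : ℕ := Lb + nb.natAbs + na.natAbs + 1 with hk
  have hk3 : (k : ℤ) < 3 ^ k := by
    have : k < 3 ^ k := Nat.lt_pow_self (by norm_num)
    exact_mod_cast this
  have hk' : (k:ℤ) = Lb + |nb| + |na| + 1 := by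
    rw [hk]; push_cast; rfl
  have hk1 : (3:ℤ) ^ (k + 1) = 3 * 3 ^ k := by ring
  have hb1 := neg_abs_le nb
  have hb2 := le_abs_self nb
  have ha1 := neg_abs_le na
  have ha2 := le_abs_self na
  have habs := abs_nonneg na
  have habs2 := abs_nonneg nb
  have hn1 : 1 ≤ nb - na + 3 ^ (k + 1) := by
    rw [hk1]; omega
  refine ⟨(nb - na + 3 ^ (k + 1)).toNat, by omega, fun i => x₀ (i + na), translate_mem na, ?_, ?_⟩
  · exact hLa _ fun i hi => (hna i hi).symm
  · apply hLb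
    intro i hi
    have h1 := abs_le.1 hi
    rw [shift_iterate, hnb i hi]
    have e : i + ((nb - na + 3 ^ (k + 1)).toNat : ℤ) + na = (i + nb) + 3 ^ (k + 1) := by
      rw [Int.toNat_of_nonneg (by omega)]; ring
    rw [e]
    exact x₀_add k (by omega) (by omega)

theorem periodic_eq {x : ℤ → Bool} (hx : x ∈ XX) {n : ℕ} (hn : 1 ≤ n) (h : shift^[n] x = x) :
    x = pp := by
  have hper : ∀ i, x (i + n) = x i := by
    intro i
    have := congrFun h i
    rwa [shift_iterate] at this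
  have hper2 : ∀ (m : ℤ) (i : ℤ), x (i + m * n) = x i := by
    intro m
    induction m using Int.induction_on with
    | zero => intro i; simp
    | succ m ih =>
      intro i
      rw [show i + ((m:ℤ) + 1) * n = i + m * n + n by ring, hper, ih]
    | pred m ih =>
      intro i
      have := hper (i + (-(m:ℤ) - 1) * n)
      rw [← this, show i + (-(m:ℤ) - 1) * n + n = i + (-(m:ℤ)) * n by ring, ih]
  -- a run of zeros of length at least n
  have hn3 : (n:ℤ) < 3 ^ n := by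
    have : n < 3 ^ n := Nat.lt_pow_self (by norm_num)
    exact_mod_cast this
  set M : ℕ := 2 * 3 ^ (n + 1) with hM
  obtain ⟨m, hm⟩ := hx M
  obtain ⟨a, ha1, ha2, ha3⟩ := zero_run m n
  funext i
  show x i = false
  have hpn : (0:ℤ) < n := by omega
  -- shift i into the run
  have hz : ∀ k : ℤ, 0 ≤ k → k < n → x (a - m + k) = false := by
    intro k hk hk'
    have h1 : |a - m + k| ≤ M := by
      have : ((M:ℕ):ℤ) = 2 * 3 ^ (n + 1) := by rw [hM]; push_cast; ring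
      rw [this, abs_le]
      constructor <;> linarith [show (0:ℤ) < 3 ^ (n+1) by positivity]
    rw [hm _ h1, show a - m + k + m = a + k by ring]
    exact ha3 k hk (by linarith)
  have h1 := Int.emod_add_mul_ediv (i - (a - m)) n
  have h2 := Int.emod_nonneg (i - (a - m)) hpn.ne'
  have h3 := Int.emod_lt_of_pos (i - (a - m)) hpn
  have h4 := hz _ h2 h3
  rw [← hper2 ((i - (a - m)) / n)] at h4
  rw [← h4]
  congr 1
  linarith [mul_comm (n:ℤ) ((i - (a - m)) / n)]

theorem finite_periodic : {x ∈ XX | ∃ n : ℕ, 1 ≤ n ∧ shift^[n] x = x}.Finite := by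
  refine (Set.finite_singleton pp).subset ?_
  rintro x ⟨hx, n, hn, h⟩
  exact periodic_eq hx hn h

end Pool.Agent.R254.Susp
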