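import Pool.Agent.R254.Susp.Example

/-! The roof function and its properties. -/

set_option autoImplicit false

open Set Filter Topology

namespace Pool.Agent.R254.Susp

/-- distance to the nearest one -/
noncomputable def D (y : ℤ → Bool) : ℕ := sInf {k : ℕ | y k = true ∨ y (-k) = true}

theorem D_eq {y : ℤ → Bool} {k : ℕ} (h1 : y k = true ∨ y (-k) = true)
    (h2 : ∀ i : ℤ, |i| < k → y i = false) : D y = k := by
  apply le_antisymm (Nat.sInf_le h1)
  apply le_csInf ⟨k, h1⟩
  intro m hm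
  by_contra hlt
  push Not at hlt
  have h3 : y m = false := h2 m (by rw [Nat.abs_cast]; exact_mod_cast hlt)
  have h4 : y (-m) = false := h2 (-m) (by rw [abs_neg, Nat.abs_cast]; exact_mod_cast hlt)
  rcases hm with hm | hm
  · rw [h3] at hm; exact Bool.false_ne_true hm
  · rw [h4] at hm; exact Bool.false_ne_true hm

theorem D_spec {y : ℤ → Bool} (hy : y ≠ pp) :
    (y (D y) = true ∨ y (-(D y)) = true) ∧ ∀ i : ℤ, |i| < D y → y i = false := by
  have hne : {k : ℕ | y k = true ∨ y (-k) = true}.Nonempty := by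
    by_contra hcon
    rw [Set.not_nonempty_iff_eq_empty] at hcon
    apply hy
    funext i
    show y i = false
    by_contra hi
    rw [Bool.not_eq_false] at hi
    have : i.natAbs ∈ {k : ℕ | y k = true ∨ y (-k) = true} := by
      rcases Int.natAbs_eq i with h | h
      · left; rw [← h]; exact hi
      · right; rw [← h]; exact hi
    rw [hcon] at this
    exact this
  refine ⟨Nat.sInf_mem hne, fun i hi => ?_⟩
  by_contra hcon
  rw [Bool.not_eq_false] at hcon
  have : D y ≤ i.natAbs := by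
    apply Nat.sInf_le
    rcases Int.natAbs_eq i with h | h
    · left; rw [← h]; exact hcon
    · right; rw [← h]; exact hcon
  rw [Int.abs_eq_natAbs] at hi
  omega

theorem D_le {y : ℤ → Bool} {i : ℤ} (h : y i = true) : D y ≤ i.natAbs := by
  apply Nat.sInf_le
  rcases Int.natAbs_eq i with h' | h'
  · left; rw [← h']; exact h
  · right; rw [← h']; exact h

theorem D_pp : D pp = 0 := by
  have : {k : ℕ | pp k = true ∨ pp (-k) = true} = ∅ := by
    ext k; simp [pp]
  rw [D, this, Nat.sInf_empty]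

theorem shift_ne {y : ℤ → Bool} (hy : y ≠ pp) : shift y ≠ pp := by
  intro h
  apply hy
  funext i
  have := congrFun h (i - 1)
  simpa [shift, pp] using this

theorem shift_pp : shift pp = pp := rfl

theorem D_shift {y : ℤ → Bool} (hy : y ≠ pp) : D (shift y) ≤ D y + 1 ∧ D y ≤ D (shift y) + 1 := by
  constructor
  · rcases (D_spec hy).1 with h | h
    · have : shift y (D y - 1) = true := by simpa [shift] using h
      have := D_le this
      omega
    · have : shift y (-(D y) - 1) = true := by simpa [shift] using h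
      have := D_le this
      omega
  · rcases (D_spec (shift_ne hy)).1 with h | h
    · have : y (D (shift y) + 1) = true := h
      have := D_le this
      omega
    · have : y (-(D (shift y)) + 1) = true := h
      have := D_le this
      omega

/-- the transfer function (discontinuous at the fixed point) -/
noncomputable def hh (y : ℤ → Bool) : ℝ := Real.cos (√(D y)) / 16

theorem hh_abs (y : ℤ → Bool) : |hh y| ≤ 1 / 16 := by
  rw [hh, abs_div, abs_of_pos (by norm_num : (0:ℝ) < 16)]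
  have := Real.abs_cos_le_one (√(D y))
  linarith

/-- the roof -/
noncomputable def rr (y : ℤ → Bool) : ℝ := 1 + hh (shift y) - hh y

theorem rr_ge (y : ℤ → Bool) : 7 / 8 ≤ rr y := by
  have h1 := abs_le.1 (hh_abs y)
  have h2 := abs_le.1 (hh_abs (shift y))
  rw [rr]; linarith [h1.2, h2.1]

theorem rr_pp : rr pp = 1 := by rw [rr, shift_pp]; ring

theorem sqrt_sub_le {a b : ℝ} (ha : 0 ≤ a) (hb : 0 < b) : |√a - √b| ≤ |a - b| / √b := by
  rw [le_div_iff₀ (Real.sqrt_pos.2 hb)]
  have h1 : |a - b| = |√a - √b| * (√a + √b) := by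
    rw [← abs_of_nonneg (by positivity : 0 ≤ √a + √b), ← abs_mul]
    congr 1
    have h2 := Real.mul_self_sqrt ha
    have h3 := Real.mul_self_sqrt hb.le
    linear_combination -h2 + h3
  rw [h1]
  exact mul_le_mul_of_nonneg_left (by linarith [Real.sqrt_nonneg a]) (abs_nonneg _)

theorem rr_near {y : ℤ → Bool} (hy : y ≠ pp) (hD : 0 < D y) : |rr y - 1| ≤ 1 / √(D y) := by
  have h1 : rr y - 1 = (Real.cos (√(D (shift y))) - Real.cos (√(D y))) / 16 := by
    rw [rr, hh, hh]; ring
  have hD' : (0:ℝ) < D y := by exact_mod_cast hD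
  rw [h1, abs_div, abs_of_pos (by norm_num : (0:ℝ) < 16)]
  have h2 : |Real.cos (√(D (shift y))) - Real.cos (√(D y))| ≤ |√(D (shift y)) - √(D y)| := by
    have := Real.lipschitzWith_cos.dist_le_mul (√(D (shift y))) (√(D y))
    simpa [Real.dist_eq] using this
  have h3 := sqrt_sub_le (Nat.cast_nonneg (D (shift y)) : (0:ℝ) ≤ _) hD'
  have h4 : |((D (shift y) : ℕ) : ℝ) - (D y : ℕ)| ≤ 1 := by
    obtain ⟨ha, hb⟩ := D_shift hy
    have ha' : ((D (shift y) : ℕ) : ℝ) ≤ (D y : ℕ) + 1 := by exact_mod_cast ha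
    have hb' : ((D y : ℕ) : ℝ) ≤ (D (shift y) : ℕ) + 1 := by exact_mod_cast hb
    rw [abs_le]; constructor <;> linarith
  have h5 : |((D (shift y) : ℕ) : ℝ) - (D y : ℕ)| / √(D y) ≤ 1 / √(D y) :=
    div_le_div_of_nonneg_right h4 (Real.sqrt_nonneg _)
  have h6 : 0 ≤ 1 / √(D y : ℝ) := by positivity
  linarith

theorem continuous_rr : Continuous rr := by
  rw [continuous_iff_continuousAt]
  intro y
  by_cases hy : y = pp
  · subst hy
    rw [Metric.continuousAt_iff']
    intro ε hε
    obtain ⟨L, hL⟩ := exists_nat_gt (1 / ε ^ 2)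
    filter_upwards [cyl_nhds pp (L + 1)] with z hz
    rw [rr_pp, Real.dist_eq]
    by_cases hzp : z = pp
    · rw [hzp, rr_pp]; simpa using hε
    have hDL : L < D z := by
      by_contra hcon
      push Not at hcon
      rcases (D_spec hzp).1 with h | h
      · have := hz (D z) (by rw [Nat.abs_cast]; exact_mod_cast hcon.trans (Nat.le_succ L))
        rw [this] at h; exact Bool.false_ne_true h
      · have := hz (-(D z)) (by rw [abs_neg, Nat.abs_cast]; exact_mod_cast hcon.trans (Nat.le_succ L))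
        rw [this] at h; exact Bool.false_ne_true h
    have hD0 : 0 < D z := by omega
    refine (rr_near hzp hD0).trans_lt ?_
    have hD0' : (0:ℝ) < D z := by exact_mod_cast hD0
    rw [div_lt_iff₀ (Real.sqrt_pos.2 hD0')]
    have h1 : 1 / ε ^ 2 < D z := hL.trans (by exact_mod_cast hDL)
    have h2 : 1 < ε ^ 2 * D z := by
      rw [div_lt_iff₀ (by positivity)] at h1
      linarith
    have h3 : (1:ℝ) < √(ε ^ 2 * D z) := by
      rw [← Real.sqrt_one]
      exact Real.sqrt_lt_sqrt (by norm_num) h2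
    rwa [Real.sqrt_mul (by positivity), Real.sqrt_sq hε.le] at h3
  · have hDc : ∀ y : ℤ → Bool, y ≠ pp → ∀ᶠ z in 𝓝 y, D z = D y := by
      intro y hy
      filter_upwards [cyl_nhds y (D y)] with z hz
      obtain ⟨h1, h2⟩ := D_spec hy
      apply D_eq
      · rcases h1 with h1 | h1
        · left; rw [hz _ (by rw [Nat.abs_cast])]; exact h1
        · right; rw [hz _ (by rw [abs_neg, Nat.abs_cast])]; exact h1
      · intro i hi
        rw [hz i hi.le]; exact h2 i hi
    have hcs : Continuous shift := by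
      apply continuous_pi
      intro i
      exact continuous_apply (i + 1)
    have h1 := hDc y hy
    have h2 := (hcs.tendsto y).eventually (hDc (shift y) (shift_ne hy))
    have h3 : ∀ᶠ z in 𝓝 y, rr z = rr y := by
      filter_upwards [h1, h2] with z hz1 hz2
      rw [rr, rr, hh, hh, hh, hh, hz1, hz2]
    exact tendsto_nhds_of_eventually_eq h3

/-- `g x` depends only on finitely many coordinates -/
def IsLocConst {X : Set (ℤ → Bool)} (g : X → ℝ) : Prop :=
  ∃ N : ℕ, ∀ x y : X, (∀ i : ℤ, |i| ≤ N → x.1 i = y.1 i) → g x = g y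

/-- restriction of the shift to a shift space -/
def restr (X : Set (ℤ → Bool)) (hX : IsShiftSpace X) (x : X) : X :=
  ⟨shift x.1, (hX.2.2 x.1).1 x.2⟩

theorem cos_not_tendsto (c : ℝ) : ¬ Tendsto (fun n : ℕ => Real.cos n) atTop (𝓝 c) := by
  intro h
  have h1 : Tendsto (fun n : ℕ => Real.cos ((n + 1 : ℕ) : ℝ)) atTop (𝓝 c) := h.comp (tendsto_add_atTop_nat 1)
  have h2 : Tendsto (fun n : ℕ => Real.cos ((n + 2 : ℕ) : ℝ)) atTop (𝓝 c) := h.comp (tendsto_add_atTop_nat 2)
  have h3 : Tendsto (fun n : ℕ => Real.cos ((2 * n : ℕ) : ℝ)) atTop (𝓝 c) :=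
    h.comp (tendsto_id.const_mul_atTop' two_pos)
  have e1 : ∀ n : ℕ, Real.cos ((n + 2 : ℕ) : ℝ) + Real.cos n = 2 * Real.cos 1 * Real.cos ((n + 1 : ℕ) : ℝ) := by
    intro n
    have ha : ((n + 2 : ℕ) : ℝ) = (n + 1 : ℕ) + 1 := by push_cast; ring
    have hb : (n : ℝ) = (n + 1 : ℕ) - 1 := by push_cast; ring
    rw [ha]
    conv_lhs => rw [hb]
    rw [show ((((n + 1 : ℕ) : ℝ) - 1 : ℝ)) = ((n + 1 : ℕ) : ℝ) - 1 from rfl]
    rw [Real.cos_add, Real.cos_sub]
    ring
  have h4 : Tendsto (fun n : ℕ => Real.cos ((n + 2 : ℕ) : ℝ) + Real.cos n) atTop (𝓝 (c + c)) := h2.add h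
  have h5 : Tendsto (fun n : ℕ => 2 * Real.cos 1 * Real.cos ((n + 1 : ℕ) : ℝ)) atTop
      (𝓝 (2 * Real.cos 1 * c)) := h1.const_mul _
  have h6 : c + c = 2 * Real.cos 1 * c := by
    refine tendsto_nhds_unique h4 ?_
    simp only [e1]
    exact h5
  have hc1 : Real.cos 1 < 1 := by
    have := Real.cos_one_le
    linarith
  have hc0 : c = 0 := by
    have : (1 - Real.cos 1) * c = 0 := by linarith
    rcases mul_eq_zero.1 this with h | h
    · linarith
    · exact h
  subst hc0
  have h7 : Tendsto (fun n : ℕ => 2 * Real.cos n ^ 2 - 1) atTop (𝓝 (2 * 0 ^ 2 - 1)) :=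
    ((h.pow 2).const_mul 2).sub_const 1
  have e2 : ∀ n : ℕ, Real.cos ((2 * n : ℕ) : ℝ) = 2 * Real.cos n ^ 2 - 1 := by
    intro n
    push_cast
    rw [Real.cos_two_mul]
  have h8 : (0:ℝ) = 2 * 0 ^ 2 - 1 := by
    refine tendsto_nhds_unique h3 ?_
    simp only [e2]
    exact h7
  norm_num at h8

/-- the backward orbit of `x₀` -/
noncomputable def yy (j : ℕ) : ℤ → Bool := fun i => x₀ (i + (-j))

theorem yy_mem (j : ℕ) : yy j ∈ XX := translate_mem (-j)

theorem shift_yy (j : ℕ) : shift (yy (j + 1)) = yy j := by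
  funext i
  simp only [shift, yy]
  congr 1
  push_cast; ring

theorem D_yy (j : ℕ) : D (yy j) = j := by
  apply D_eq
  · left
    simp only [yy, add_neg_cancel]
    exact x₀_zero
  · intro i hi
    apply x₀_neg
    have := (abs_lt.1 hi).2
    linarith

theorem not_cohomologous (g : XX → ℝ) (hg : IsLocConst g) :
    ¬ Cohomologous (restr XX isShiftSpace_XX) (fun x => rr x.1) g := by
  rintro ⟨k, hk, hcob⟩
  obtain ⟨N, hN⟩ := hg
  set P : XX := ⟨pp, pp_mem⟩ with hP
  set Y : ℕ → XX := fun j => ⟨yy j, yy_mem j⟩ with hY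
  have hYP : Tendsto Y atTop (𝓝 P) := by
    rw [tendsto_subtype_rng]
    show Tendsto (fun j => yy j) atTop (𝓝 pp)
    rw [tendsto_pi_nhds]
    intro i
    apply tendsto_nhds_of_eventually_eq
    filter_upwards [eventually_gt_atTop i.natAbs] with j hj
    apply x₀_neg
    omega
  have hgP : g P = 1 := by
    have := hcob P
    have hs : restr XX isShiftSpace_XX P = P := Subtype.ext shift_pp
    rw [hs, sub_self] at this
    have h2 : rr P.1 = 1 := rr_pp
    linarith
  have hgY : ∀ j, N < j → g (Y j) = 1 := by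
    intro j hj
    rw [← hgP]
    apply hN
    intro i hi
    apply x₀_neg
    have := (abs_le.1 hi).2
    omega
  -- h - k is eventually constant
  have hstep : ∀ j, N < j → hh (yy (j + 1)) - k (Y (j + 1)) = hh (yy j) - k (Y j) := by
    intro j hj
    have h1 := hcob (Y (j + 1))
    have hs : restr XX isShiftSpace_XX (Y (j + 1)) = Y j := Subtype.ext (shift_yy j)
    rw [hs, hgY (j + 1) (by omega)] at h1
    have h2 : rr (Y (j + 1)).1 = 1 + hh (yy j) - hh (yy (j + 1)) := by
      show rr (yy (j + 1)) = _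
      rw [rr, shift_yy]
    simp only [h2] at h1
    linarith
  have hconst : ∀ j, hh (yy (N + 1 + j)) - k (Y (N + 1 + j)) = hh (yy (N + 1)) - k (Y (N + 1)) := by
    intro j
    induction j with
    | zero => rfl
    | succ j ih => rw [← add_assoc, hstep _ (by omega), ih]
  have hlim : Tendsto (fun j => hh (yy j)) atTop (𝓝 (hh (yy (N + 1)) - k (Y (N + 1)) + k P)) := by
    rw [← tendsto_add_atTop_iff_nat (N + 1)]
    have h1 : Tendsto (fun j => k (Y (j + (N + 1)))) atTop (𝓝 (k P)) :=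
      ((hk.tendsto P).comp hYP).comp (tendsto_add_atTop_nat (N + 1))
    have h2 := h1.const_add (hh (yy (N + 1)) - k (Y (N + 1)))
    refine h2.congr fun j => ?_
    have := hconst j
    rw [add_comm (N + 1) j] at this
    linarith
  have hsq : Tendsto (fun n : ℕ => 16 * hh (yy (n ^ 2))) atTop
      (𝓝 (16 * (hh (yy (N + 1)) - k (Y (N + 1)) + k P))) :=
    (hlim.comp (tendsto_pow_atTop two_ne_zero)).const_mul 16
  refine cos_not_tendsto _ (hsq.congr fun n => ?_)
  rw [hh, D_yy]
  push_cast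
  rw [Real.sqrt_sq (Nat.cast_nonneg n)]
  ring

/-- the eigenfunction -/
noncomputable def EE : Space (restr XX isShiftSpace_XX) (fun x => rr x.1) → AddCircle (1:ℝ) :=
  Quot.lift (fun p => ((p.1.2 + hh p.1.1.1 : ℝ) : AddCircle (1:ℝ))) (by
    rintro p q ⟨h1, h2, h3⟩
    simp only
    rw [h3, h2, h1]
    have : rr p.1.1.1 + hh p.1.1.1 = (0 + hh (restr XX isShiftSpace_XX p.1.1).1) + 1 := by
      rw [rr]
      show 1 + hh (shift p.1.1.1) - hh p.1.1.1 + hh p.1.1.1 = 0 + hh (shift p.1.1.1) + 1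
      ring
    rw [this, AddCircle.coe_add_period])

theorem EE_flow {φ : ℝ → Space (restr XX isShiftSpace_XX) (fun x => rr x.1) →
      Space (restr XX isShiftSpace_XX) (fun x => rr x.1)}
    (hφ : IsSuspensionFlow (restr XX isShiftSpace_XX) (fun x => rr x.1) φ) {t : ℝ} (ht : 0 ≤ t)
    (q : Space (restr XX isShiftSpace_XX) (fun x => rr x.1)) :
    EE (φ t q) = EE q + (t : AddCircle (1:ℝ)) := by
  obtain ⟨h0, hadd, hloc⟩ := hφ
  have hA : ∀ (p : Base (fun x : XX => rr x.1)) (t : ℝ), 0 ≤ t → p.1.2 + t ≤ rr p.1.1.1 →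
      EE (φ t (Quot.mk _ p)) = EE (Quot.mk _ p) + (t : AddCircle (1:ℝ)) := by
    intro p t ht hpt
    have := hloc p ⟨(p.1.1, p.1.2 + t), by linarith [p.2.1], hpt⟩ rfl (by simp [ht])
    have e : (p.1.2 + t) - p.1.2 = t := by ring
    simp only [e] at this
    rw [this]
    show ((p.1.2 + t + hh p.1.1.1 : ℝ) : AddCircle (1:ℝ)) =
      ((p.1.2 + hh p.1.1.1 : ℝ) : AddCircle (1:ℝ)) + (t : AddCircle (1:ℝ))
    rw [← AddCircle.coe_add]
    congr 1
    ring
  have hC : ∀ (p : Base (fun x : XX => rr x.1)) (t : ℝ), rr p.1.1.1 ≤ p.1.2 + t →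
      (EE (φ (t - (rr p.1.1.1 - p.1.2)) (Quot.mk _ ⟨(restr XX isShiftSpace_XX p.1.1, 0), le_rfl,
          by have := rr_ge (restr XX isShiftSpace_XX p.1.1).1; show (0:ℝ) ≤ rr _; linarith⟩)) =
        EE (Quot.mk _ ⟨(restr XX isShiftSpace_XX p.1.1, 0), le_rfl,
          by have := rr_ge (restr XX isShiftSpace_XX p.1.1).1; show (0:ℝ) ≤ rr _; linarith⟩) +
          ((t - (rr p.1.1.1 - p.1.2) : ℝ) : AddCircle (1:ℝ))) →
      EE (φ t (Quot.mk _ p)) = EE (Quot.mk _ p) + (t : AddCircle (1:ℝ)) := by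
    intro p t hpt hyp
    have hnn : 0 ≤ rr p.1.1.1 := by have := rr_ge p.1.1.1; linarith
    set top : Base (fun x : XX => rr x.1) := ⟨(p.1.1, rr p.1.1.1), hnn, le_rfl⟩ with htop
    set bot : Base (fun x : XX => rr x.1) := ⟨(restr XX isShiftSpace_XX p.1.1, 0), le_rfl,
          by have := rr_ge (restr XX isShiftSpace_XX p.1.1).1; show (0:ℝ) ≤ rr _; linarith⟩ with hbot
    have h1 : φ (rr p.1.1.1 - p.1.2) (Quot.mk _ p) = Quot.mk _ top := hloc p top rfl p.2.2
    have h2 : (Quot.mk _ top : Space (restr XX isShiftSpace_XX) (fun x => rr x.1)) = Quot.mk _ bot :=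
      Quot.sound ⟨rfl, rfl, rfl⟩
    have h3 : t = (t - (rr p.1.1.1 - p.1.2)) + (rr p.1.1.1 - p.1.2) := by ring
    have h4 := hA p (rr p.1.1.1 - p.1.2) (by linarith [p.2.2]) (by linarith)
    rw [h1, h2] at h4
    conv_lhs => rw [h3]
    rw [hadd, h1, h2, hyp, h4, add_assoc, ← AddCircle.coe_add]
    congr 2
    ring
  have hB : ∀ N : ℕ, ∀ t : ℝ, 0 ≤ t → t ≤ N / 2 → ∀ p : Base (fun x : XX => rr x.1), p.1.2 = 0 →
      EE (φ t (Quot.mk _ p)) = EE (Quot.mk _ p) + (t : AddCircle (1:ℝ)) := by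
    intro N
    induction N with
    | zero =>
      intro t ht ht' p hp
      have : t = 0 := by
        rw [Nat.cast_zero, zero_div] at ht'
        linarith
      rw [this, h0, AddCircle.coe_zero, add_zero]
    | succ N ih =>
      intro t ht ht' p hp
      rcases le_total (p.1.2 + t) (rr p.1.1.1) with h | h
      · exact hA p t ht h
      · apply hC p t h
        have := rr_ge p.1.1.1
        push_cast at ht'
        apply ih _ (by linarith) (by linarith) _ rfl
  induction q using Quot.ind with | mk p => ?_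
  rcases le_total (p.1.2 + t) (rr p.1.1.1) with h | h
  · exact hA p t ht h
  · apply hC p t h
    obtain ⟨N, hN⟩ := exists_nat_ge (2 * (t - (rr p.1.1.1 - p.1.2)))
    exact hB N _ (by linarith) (by linarith) _ rfl

theorem not_mixing {φ : ℝ → Space (restr XX isShiftSpace_XX) (fun x => rr x.1) →
      Space (restr XX isShiftSpace_XX) (fun x => rr x.1)}
    (hφ : IsSuspensionFlow (restr XX isShiftSpace_XX) (fun x => rr x.1) φ) : ¬ IsMixingFlow φ := by
  intro hmix
  -- the set of classes with height in `(a, b)`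
  have hset : ∀ a b : ℝ, 0 < a → b < 7 / 8 → ∃ U : Set (Space (restr XX isShiftSpace_XX)
      (fun x => rr x.1)), IsOpen U ∧ (∀ p : Base (fun x : XX => rr x.1), (Quot.mk _ p ∈ U ↔
        a < p.1.2 ∧ p.1.2 < b)) := by
    intro a b ha hb
    refine ⟨{q | Quot.lift (fun p : Base (fun x : XX => rr x.1) => a < p.1.2 ∧ p.1.2 < b) (by
      rintro p q ⟨h1, h2, h3⟩
      have := rr_ge p.1.1.1
      apply propext
      constructor
      · rintro ⟨h4, h5⟩; simp only at h1; linarith
      · rintro ⟨h4, h5⟩; linarith) q}, ?_, fun p => Iff.rfl⟩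
    have hq : IsQuotientMap (Quot.mk (Glue (restr XX isShiftSpace_XX) (fun x => rr x.1))) :=
      isQuotientMap_quot_mk
    refine hq.isOpen_preimage.1 ?_
    show IsOpen {p : Base (fun x : XX => rr x.1) | a < p.1.2 ∧ p.1.2 < b}
    have hc : Continuous fun p : Base (fun x : XX => rr x.1) => p.1.2 :=
      continuous_snd.comp continuous_subtype_val
    exact (isOpen_lt continuous_const hc).inter (isOpen_lt hc continuous_const)
  obtain ⟨U, hU, hU'⟩ := hset (1 / 10) (3 / 10) (by norm_num) (by norm_num)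
  obtain ⟨V, hV, hV'⟩ := hset (6 / 10) (8 / 10) (by norm_num) (by norm_num)
  have hpt : ∀ s : ℝ, 0 ≤ s → s ≤ 7 / 8 → ∃ p : Base (fun x : XX => rr x.1), p.1.2 = s :=
    fun s h1 h2 => ⟨⟨(⟨pp, pp_mem⟩, s), h1, by have := rr_ge pp; show s ≤ rr pp; linarith⟩, rfl⟩
  obtain ⟨T, hT⟩ := hmix U V hU hV
    (by
      obtain ⟨p, hp⟩ := hpt (2 / 10) (by norm_num) (by norm_num)
      exact ⟨Quot.mk _ p, (hU' p).2 (by rw [hp]; norm_num)⟩)
    (by
      obtain ⟨p, hp⟩ := hpt (7 / 10) (by norm_num) (by norm_num)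
      exact ⟨Quot.mk _ p, (hV' p).2 (by rw [hp]; norm_num)⟩)
  obtain ⟨n, hn⟩ := exists_nat_ge T
  obtain ⟨z, ⟨q, hqU, rfl⟩, hzV⟩ := hT n hn
  have hE := EE_flow hφ (Nat.cast_nonneg n) q
  have hn0 : (((n : ℕ) : ℝ) : AddCircle (1:ℝ)) = 0 := by
    rw [AddCircle.coe_eq_zero_iff]
    exact ⟨n, by simp⟩
  rw [hn0, add_zero] at hE
  revert hE hzV
  generalize φ n q = w
  intro hwV hE
  induction q using Quot.ind with | mk p => ?_
  induction w using Quot.ind with | mk p' => ?_
  have h1 := (hU' p).1 hqU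
  have h2 := (hV' p').1 hwV
  have h3 : ((p'.1.2 + hh p'.1.1.1 : ℝ) : AddCircle (1:ℝ)) = ((p.1.2 + hh p.1.1.1 : ℝ) : AddCircle (1:ℝ)) := hE
  rw [← sub_eq_zero, ← AddCircle.coe_sub, AddCircle.coe_eq_zero_iff] at h3
  obtain ⟨m, hm⟩ := h3
  rw [zsmul_eq_mul, mul_one] at hm
  have h4 := abs_le.1 (hh_abs p.1.1.1)
  have h5 := abs_le.1 (hh_abs p'.1.1.1)
  have h6 : (0:ℝ) < m := by rw [hm]; linarith [h1.2, h2.1, h4.2, h5.1]
  have h7 : (m:ℝ) < 1 := by rw [hm]; linarith [h1.1, h2.2, h4.1, h5.2]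
  have h8 : 0 < m := by exact_mod_cast h6
  have h9 : m < 1 := by exact_mod_cast h7
  omega

/-- the shift as an equivalence -/
def sig : XX ≃ XX where
  toFun := restr XX isShiftSpace_XX
  invFun x := ⟨fun i => x.1 (i - 1), by
    rw [shift_mem_iff]
    have : shift (fun i => x.1 (i - 1)) = x.1 := by funext i; simp [shift]
    rw [this]; exact x.2⟩
  left_inv x := by
    apply Subtype.ext; funext i; simp [restr, shift]
  right_inv x := by
    apply Subtype.ext; funext i; simp [restr, shift]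

theorem flow_exists : ∃ φ, IsSuspensionFlow (restr XX isShiftSpace_XX) (fun x => rr x.1) φ :=
  exists_flow (σ := sig) (r := fun x => rr x.1) (fun x => by have := rr_ge x.1; linarith)
    (c := 7 / 8) (by norm_num) (fun x => rr_ge x.1)

end Pool.Agent.R254.Susp
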